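import Pool.Agent.Q25.PLP.Stm

/-!
# Points, lines and planes: the local inequality from the deterministic one
-/

set_option autoImplicit false

open Finset Pool.Agent.Helper123.PLP Pool.Agent.Q25.PLP

namespace Pool.Agent.Q143.PLPLOC

theorem t_LOC (h1 : S_VERT) (h2 : S_LOCX) : S_LOC := by
  intro P _ _ V L hLS c hc γ hlow hPP
  by_cases hcon : ∃ x ∈ V, ∃ y ∈ V, γ x ≠ γ y
  · obtain ⟨X, hX, hcoll⟩ := h1 P V L hLS c hc
    have hL : IsLow L γ X := fun l hl => ⟨(hX l hl).1, fun z hz =>
      hlow l hl (X l) (hX l hl).1 (hX l hl).2 z hz⟩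
    have key := h2 P V L γ X hLS hL hcon
    have hLam : LamC V L γ c = LamX V L γ X := by
      unfold LamC LamX
      apply sum_congr rfl
      intro l hl
      have hs : ∑ x ∈ l, c l x * γ x = γ (X l) := by
        have : ∀ x ∈ l, c l x * γ x = c l x * γ (X l) := by
          intro x hx
          by_cases h0 : c l x = 0
          · rw [h0]; simp
          · rw [le_antisymm (hlow l hl x hx h0 (X l) (hX l hl).1)
              (hlow l hl (X l) (hX l hl).1 (hX l hl).2 x hx)]
        rw [sum_congr rfl this, ← sum_mul, hc.one l hl, one_mul]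
      rw [hs]
    rw [hLam]
    linarith
  · push Not at hcon
    have hLam : LamC V L γ c = 0 := by
      unfold LamC
      apply sum_eq_zero
      intro l hl
      apply sum_eq_zero
      intro z hz
      have hzV : z ∈ V := (mem_sdiff.mp hz).1
      have : ∀ x ∈ l, c l x * γ x = c l x * γ z := by
        intro x hx
        rw [hcon x (hLS.sub l hl hx) z hzV]
      rw [sum_congr rfl this, ← sum_mul, hc.one l hl]
      ring
    have hQ : QQ V L γ = 0 := by
      unfold QQ
      have : ∑ l ∈ L, ((V.card : ℝ) - l.card) * ∑ x ∈ l, ∑ z ∈ l, (γ x - γ z) ^ 2 = 0 := by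
        apply sum_eq_zero
        intro l hl
        have : ∑ x ∈ l, ∑ z ∈ l, (γ x - γ z) ^ 2 = 0 := by
          apply sum_eq_zero
          intro x hx
          apply sum_eq_zero
          intro z hz
          rw [hcon x (hLS.sub l hl hx) z (hLS.sub l hl hz)]
          ring
        rw [this, mul_zero]
      rw [this, mul_zero]
    rw [hLam, hQ]
    linarith

end Pool.Agent.Q143.PLPLOC
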